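import Pool.Agent.Run7.h745.AH.Defs

/-!
# AH algebras: the definition used in the hand-in
-/

set_option autoImplicit false

noncomputable section

namespace Run7.h745

/-- the subset `S` of `A` is a unital *-subalgebra isomorphic to `B` -/
def IsCopyOf (B : Type) [Semiring B] [Algebra ℂ B] [Star B] {A : Type} [CStarAlgebra A]
    (S : Set A) : Prop :=
  ∃ j : B →⋆ₐ[ℂ] A, Function.Injective j ∧ Set.range j = S

/-- `A` is an AH algebra: it is the closure of the union of an increasing sequence of unital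
*-subalgebras `S n`, each of which is isomorphic to a finite direct sum of algebras `M_d(C(X))` with
`X` a compact metric space. -/
def AHAlg (A : Type) [CStarAlgebra A] : Prop :=
  ∃ S : ℕ → Set A, (∀ n, ∃ (r : ℕ) (X : Fin r → Type) (_ : ∀ i, MetricSpace (X i))
      (_ : ∀ i, CompactSpace (X i)) (d : Fin r → ℕ),
        IsCopyOf (∀ i, C(X i, Matrix (Fin (d i)) (Fin (d i)) ℂ)) (S n)) ∧
    (∀ n, S n ⊆ S (n + 1)) ∧ Dense (⋃ n, S n)

theorem IsAH.ahAlg {A : Type} [CStarAlgebra A] (h : IsAH A) : AHAlg A := by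
  obtain ⟨r, X, i1, i2, d, j, h1, h2, h3⟩ := h
  exact ⟨fun n => Set.range (j n), fun n => ⟨r n, X n, i1 n, i2 n, d n, j n, h1 n, rfl⟩, h2, h3⟩

end Run7.h745
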