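import Pool.Agent.Run7.h745.Defs

/-!
# AH algebras
-/

set_option autoImplicit false

noncomputable section

namespace Run7.h745

/-- `A` is an AH algebra: it is the closure of the union of an increasing sequence of unital
*-subalgebras, each of which is isomorphic to a finite direct sum of matrix algebras over algebras
of continuous functions on compact metric spaces. -/
def IsAH (A : Type) [CStarAlgebra A] : Prop :=
  ∃ (r : ℕ → ℕ) (X : ∀ n, Fin (r n) → Type) (_ : ∀ n i, MetricSpace (X n i))
    (_ : ∀ n i, CompactSpace (X n i)) (d : ∀ n, Fin (r n) → ℕ)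
    (j : ∀ n, (∀ i, C(X n i, Matrix (Fin (d n i)) (Fin (d n i)) ℂ)) →⋆ₐ[ℂ] A),
    (∀ n, Function.Injective (j n)) ∧ (∀ n, Set.range (j n) ⊆ Set.range (j (n + 1))) ∧
    Dense (⋃ n, Set.range (j n))

end Run7.h745
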