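import Pool.Agent.Run7.h745.Root
import Pool.Agent.Run7.h305.CX.G1
import Pool.Agent.Run7.h305.CX.G2
import Pool.Agent.Run7.h745.QTof
import Pool.Agent.Run7.h803.AH.LIP
import Pool.Agent.Run7.h803.AH.MonoTR
import Pool.Agent.Run7.h590.AH.KZ
import Pool.Agent.Run7.h255.AH.RCA
import Pool.Agent.Run7.h973.AH.SIMPLE
import Pool.Agent.Run7.h973.AH.AVPT
import Pool.Agent.Run7.h212.AH.UPX
import Pool.Agent.Run7.h212.AH.UP
import Pool.Agent.Run7.h467.AH.RK
import Pool.Agent.Run7.h704.AH.SEP_ISAH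
import Pool.Agent.Run7.h704.AH.KO
import Pool.Agent.Run7.h930.AH.WTM_WTE
import Pool.Agent.Run7.h882.AH.ISO
import Pool.Agent.Run7.h882.AH.ELLA
import Pool.Agent.Run7.h228.AH.QTA
import Pool.Agent.Run7.h277.AH.BT
import Pool.Agent.Run7.h277.AH.OBA
import Pool.Agent.Run7.h277.AH.LOW
import Pool.Agent.Run7.h705.AH.NUM

/-!
# MP_501a10_an: assembly
-/

set_option autoImplicit false

noncomputable section

namespace Run7.h745.AH

open Filter Topology Matrix Pool.Agent.H188R3 Pool.Agent.TH249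
open scoped ENNReal NNReal ComplexOrder

lemma mm_real (t : ℕ) : (mm t : ℝ) + 1 = 16 ^ (t + 1) := by exact_mod_cast mm_succ t

lemma amp_real (s : ℕ → Bool) (t : ℕ) : (1 : ℝ) ≤ amp s t := by exact_mod_cast amp_pos s t

lemma amp_true {s : ℕ → Bool} {t : ℕ} (h : s t = true) : (amp s t : ℝ) = 4 := by
  unfold amp; rw [if_pos h]; norm_num

lemma amp_false {s : ℕ → Bool} {t : ℕ} (h : s t = false) : (amp s t : ℝ) = 1 := by
  unfold amp; rw [if_neg (by rw [h]; exact Bool.false_ne_true)]; norm_num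

lemma amp_le (s : ℕ → Bool) (t : ℕ) : (amp s t : ℝ) ≤ 4 := by
  unfold amp; split_ifs <;> norm_num

/-- the invariant sees `s` -/
theorem dt_iff (s : ℕ → Bool) (L : Type) [CStarAlgebra L] (j : ∀ n, A s n →⋆ₐ[ℂ] L)
    (h : IsLim (φ s) j) (t : ℕ) : Dt L t ↔ s t = true := by
  have hUP := Run7.h212.AH.t_UP Run7.h705.AH.t_NUM t_MONO Run7.h705.AH.t_TRF Run7.h973.AH.t_PT
    Run7.h973.AH.t_AV t_LIP Run7.h212.AH.t_UPX (Run7.h305.CX.g2 Run7.h305.CX.g1) s L j h
  have hLOW := Run7.h277.AH.LOW.t_LOW Run7.h705.AH.t_NUM t_MONO Run7.h277.AH.BT.t_BT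
    Run7.h277.AH.t_OBA s L j h
  have hM := mm_real t
  have hM16 : (16 : ℝ) ≤ (mm t : ℝ) + 1 := by
    rw [hM]
    calc (16 : ℝ) = 16 ^ 1 := by norm_num
      _ ≤ 16 ^ (t + 1) := pow_le_pow_right₀ (by norm_num) (by omega)
  constructor
  · intro hD
    by_contra hs
    have hs : s t = false := by simpa using hs
    obtain ⟨τ₀, h1, h2⟩ := Run7.h930.AH.t_WTE Run7.h705.AH.t_NUM Run7.h705.AH.t_TRF
      Run7.h973.AH.t_AV s L j h t
    have h3 : PrT L τ₀ (2 * ((mm t : ℝ) + 1)) := by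
      refine hUP τ₀ _ (by positivity) fun t' => ?_
      by_cases ht : t' = t
      · right
        rw [ht, amp_false hs, div_one]
        linarith
      · left
        exact h2 t' ht
    refine hLOW t τ₀ (1 / 2) (by norm_num) h1 _ ?_ (hD τ₀ h3)
    rw [amp_false hs, div_one]
    linarith
  · intro hs τ₀ h0
    refine hUP τ₀ _ (by positivity) fun t' => ?_
    rcases lt_or_ge t t' with ht | ht
    · left
      by_contra hcon
      push Not at hcon
      obtain ⟨ε, hε, hn⟩ := hcon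
      have hNUM := Run7.h705.AH.t_NUM.1
      refine hLOW t' τ₀ (3 / 4 * ε) (by positivity) (fun n hn' => ?_) _ ?_ h0
      · obtain ⟨m, hm, hnm, hw⟩ := hn n
        have h2 := Run7.h930.AH.t_WTM Run7.h705.AH.t_NUM Run7.h705.AH.t_TRF t_MONO s L j h τ₀ t' n m
          hn' hm hnm
        have h3 : 3 / 4 * ε ≤ d m * (τ₀.val (j m (eC s (ft hm)))).re :=
          mul_le_mul (hNUM m).1 hw hε.le (by linarith [(hNUM m).1])
        have h4 : 0 < d n := by linarith [(hNUM n).1]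
        by_contra hlt
        push Not at hlt
        have h5 : d n * (τ₀.val (j n (eC s (ft hn')))).re < d n * (3 / 4 * ε) :=
          mul_lt_mul_of_pos_left hlt h4
        have h6 : d n * (3 / 4 * ε) ≤ 3 / 4 * ε := by nlinarith [(hNUM n).2]
        linarith
      · have h7 : 16 * ((mm t : ℝ) + 1) ≤ (mm t' : ℝ) + 1 := by
          rw [mm_real, mm_real]
          calc (16 : ℝ) * 16 ^ (t + 1) = 16 ^ (t + 2) := by ring
            _ ≤ 16 ^ (t' + 1) := pow_le_pow_right₀ (by norm_num) (by omega)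
        have h8 : (0 : ℝ) < amp s t' := by linarith [amp_real s t']
        have h9 := amp_le s t'
        rw [le_div_iff₀ h8]
        nlinarith
    · right
      rcases ht.eq_or_lt with ht | ht
      · rw [ht, amp_true hs]
        linarith
      · have h7 : 16 * ((mm t' : ℝ) + 1) ≤ (mm t : ℝ) + 1 := by
          rw [mm_real, mm_real]
          calc (16 : ℝ) * 16 ^ (t' + 1) = 16 ^ (t' + 2) := by ring
            _ ≤ 16 ^ (t + 1) := pow_le_pow_right₀ (by norm_num) (by omega)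
        have h8 := amp_real s t'
        have h9 : (0 : ℝ) ≤ mm t' := by positivity
        calc ((mm t' : ℝ) + 2) / amp s t' ≤ ((mm t' : ℝ) + 2) / 1 :=
              div_le_div_of_nonneg_left (by linarith) one_pos h8
          _ ≤ _ := by rw [div_one]; linarith

/-- assembly -/
theorem final : ∃ (L : (ℕ → Bool) → Type) (_ : ∀ s, CStarAlgebra (L s)),
    (∀ s, IsSimpleRing (L s)) ∧ (∀ s, TopologicalSpace.SeparableSpace (L s)) ∧
    (∀ s, IsAH (L s)) ∧ (∀ s s', SameElliott (L s) (L s')) ∧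
    (∀ s, Nonempty (QT (L s))) ∧ (∀ s, radComp (L s) = ⊤) ∧
    ∀ s s', s ≠ s' → IsEmpty (L s ≃⋆ₐ[ℂ] L s') := by
  choose L cL j h using fun s : ℕ → Bool => exists_lim (φ s) (Run7.h705.AH.t_INJ s)
  have hTR := t_TR Run7.h705.AH.t_TRF
  have hNUM := Run7.h705.AH.t_NUM
  have hBT := Run7.h277.AH.BT.t_BT
  refine ⟨L, cL, fun s => Run7.h973.AH.t_SIMPLE s (L s) (j s) (h s),
    fun s => t_SEP s (L s) (j s) (h s), fun s => t_ISAH s (L s) (j s) (h s),
    fun s s' => Run7.h882.AH.t_ELLA hTR Run7.h590.AH.t_KZ t_RK Run7.h705.AH.t_TRF t_KO s s' (L s)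
      (j s) (L s') (j s') (h s) (h s'), fun s => ?_, fun s => ?_, fun s s' hs => ⟨fun e => ?_⟩⟩
  · obtain ⟨τ₀, -⟩ := Run7.h930.AH.t_WTE hNUM Run7.h705.AH.t_TRF Run7.h973.AH.t_AV s (L s) (j s)
      (h s) 0
    exact ⟨τ₀.toQT⟩
  · rw [radComp_eq]
    exact Run7.h255.AH.t_RCA hNUM hBT Run7.h277.AH.t_OBA Pool.Agent.Run7.h228.AH.t_QTA s (L s)
      (j s) (h s)
  · refine hs (funext fun t => ?_)
    have h1 := dt_iff s (L s) (j s) (h s) t
    have h2 := dt_iff s' (L s') (j s') (h s') t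
    have h3 : Dt (L s) t ↔ Dt (L s') t :=
      ⟨Run7.h882.AH.t_ISO (L s) (L s') ⟨e⟩ t, Run7.h882.AH.t_ISO (L s') (L s) ⟨e.symm⟩ t⟩
    have h4 : s t = true ↔ s' t = true := by rw [← h1, ← h2]; exact h3
    exact Bool.eq_iff_iff.2 h4

end Run7.h745.AH
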