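import Pool.Agent.Run7.h745.AH.Sys
import Pool.Agent.Run7.h745.AH.Defs
import Pool.Agent.Run7.h745.Iface

/-!
# MP_501a10_an: interface of the pieces

GOAL (`S_FINAL`): for `s : ℕ → Bool` the limit `L_s` of the system `φ s` (file `Sys.lean`) is a simple
separable unital AH algebra; all the `L_s` have the same Elliott invariant, `rc L_s = ∞`, and `L_s`,
`L_{s'}` are isomorphic only for `s = s'`.

Notation: `M_t = mm t + 1 = 16^(t+1)`, `N s n t = amp s t * k n` (matrix size), `d n = f n / k n`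
(density of the free coordinates; `3/4 ≤ d n ≤ 1`), `X n t = (Fin (f n) → CZ t)`,
`A s n = ∏_{t ≤ n} C(X n t, M_{N s n t})`.

The invariant: `PrT L τ₀ r` (local comparison at `τ₀` with radius `r`).  `s t = true` if and only if
`∀ τ₀, PrT L τ₀ (2 M_t) → PrT L τ₀ (M_t / 2)`.

Each piece is a `def S_... : Prop`.  To prove a piece write a file
`Pool/Agent/Run7/<you>/AH/<PIECE>.lean` which imports this file, with
`theorem t_... : (hypotheses S_..) → S_...`.
-/

set_option autoImplicit false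

noncomputable section

namespace Run7.h745.AH

open Filter Topology Matrix Pool.Agent.H188R3 Pool.Agent.TH249
open scoped ENNReal NNReal ComplexOrder

/-! ### Notation -/

/-- normalised trace -/
def ntr {I : Type} [Fintype I] (x : MA I ℂ) : ℂ := (∑ i, x.en i i) / (Fintype.card I : ℂ)

/-- the centre-valued trace of an element of level `n` -/
def nt {s : ℕ → Bool} {n : ℕ} (a : A s n) (t : Fin (n + 1)) (y : X n t) : ℂ := ntr (a t y)

/-- `t` as an element of `Fin (n + 1)` -/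
def ft {t n : ℕ} (h : t ≤ n) : Fin (n + 1) := ⟨t, Nat.lt_succ_of_le h⟩

/-- the unit of the component `t` of level `n` -/
def eC (s : ℕ → Bool) {n : ℕ} (t : Fin (n + 1)) : A s n := Pi.single t 1

/-- density of the free coordinates -/
def d (n : ℕ) : ℝ := (f n : ℝ) / k n

/-! ### Piece NUM -/

/-- NUM.  `d (n + 1) / d n = q n / (q n + 4 (n + 1)^3) = 1 / (1 + 2^{-(n + 3)})`, so
`1 - d n / d n₀ ≤ ∑_{i ≥ n₀} 2^{-(i + 3)} = 2^{-(n₀ + 2)}`. -/
def S_NUM : Prop :=
  (∀ n, 3 / 4 ≤ d n ∧ d n ≤ 1) ∧ (∀ n, d (n + 1) * ((q n : ℝ) + 4 * (n + 1) ^ 3) = q n * d n) ∧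
  ∀ n₀ n, n₀ ≤ n → d n ≤ d n₀ ∧ 1 - d n / d n₀ ≤ (1 / 2) ^ (n₀ + 2)

/-! ### Piece INJ, TRF: the connecting maps -/

/-- INJ.  For `t ≤ n` and `y : X n t` there is `y' : X (n + 1) t` all of whose sub-blocks are `y`. -/
def S_INJ : Prop := ∀ s n, Function.Injective (φ s n)

/-- TRF.  The centre-valued trace of `φ a` depends only on the centre-valued trace of `a`, by a
formula which does not contain `s`. (Sum over the slots; the matrix sizes are
`N s (n + 1) t' = amp t' (q n + 4 (n + 1)^3) k n` and `N s n t = amp t * k n`; `amp * co = 4`.) -/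
def S_TRF : Prop :=
  ∀ s n (a : A s n) (t' : Fin (n + 2)) (y : X (n + 1) t'),
    nt (φ s n a) t' y * ((q n : ℂ) + 4 * (n + 1) ^ 3) =
      (if h : (t' : ℕ) ≤ n then ∑ i : Fin (q n), nt a (ft h) (blk n t' i y)
        else (q n : ℂ) * nt a 0 (x0 n 0)) + 4 * ∑ c : Cn n, nt a c.2.2 (pt n c)

/-! ### Pieces SIMPLE, SEP, ISAH -/

/-- SIMPLE.  `IsLim.simple`: let `x ≠ 0` in `A s n`, `x t y₀ ≠ 0`; then `x t ≠ 0` on an open set `U`
which contains the point number `i` of the dense sequence of `X n t`.  Let `m ≥ n`, `m ≥ i`.  The slot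
`cst (n, i, t)` of `φ s m` evaluates at `pt m (n, i, t)`, all of whose level `n` blocks are that
point, and (induction on `m`, only free slots) `trans (φ s) n m x t` at that point has a block
`x t (point) ≠ 0`; so every component of `trans (φ s) n (m + 1) x` has a constant nonzero block, at
the same place for all points, and the ideal it generates is everything (matrix units). -/
def S_SIMPLE : Prop :=
  ∀ (s : ℕ → Bool) (L : Type) [CStarAlgebra L] (j : ∀ n, A s n →⋆ₐ[ℂ] L), IsLim (φ s) j →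
    IsSimpleRing L

/-- SEP.  Each `A s n` is separable. -/
def S_SEP : Prop :=
  ∀ (s : ℕ → Bool) (L : Type) [CStarAlgebra L] (j : ∀ n, A s n →⋆ₐ[ℂ] L), IsLim (φ s) j →
    TopologicalSpace.SeparableSpace L

/-- ISAH.  `MA (Fin N) ℂ` is `Matrix (Fin N) (Fin N) ℂ` with the same topology. -/
def S_ISAH : Prop :=
  ∀ (s : ℕ → Bool) (L : Type) [CStarAlgebra L] (j : ∀ n, A s n →⋆ₐ[ℂ] L), IsLim (φ s) j → IsAH L

/-! ### Piece TR: traces -/

/-- MONO.  `τ(j a)` depends monotonically on the centre-valued trace: by the trace property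
`τ(j a) = τ(j (nt a · 1))`. -/
def S_MONO : Prop :=
  ∀ (s : ℕ → Bool) (L : Type) [CStarAlgebra L] (j : ∀ n, A s n →⋆ₐ[ℂ] L), IsLim (φ s) j →
    ∀ (τ : TracialState L) (n : ℕ) (a b : A s n), (∀ t y, (nt a t y).re ≤ (nt b t y).re) →
      (τ.val (j n a)).re ≤ (τ.val (j n b)).re

/-- TR.  The tracial states do not see `s`: a tracial state of `L` is the same thing as a
compatible sequence of states `z n` of `∏_t C(X n t)`, `τ (j a) = z n (nt a)` (extend by continuity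
from the dense union; compatibility by TRF). -/
def S_TR : Prop :=
  ∀ (s s' : ℕ → Bool) (L : Type) [CStarAlgebra L] (j : ∀ n, A s n →⋆ₐ[ℂ] L)
    (L' : Type) [CStarAlgebra L'] (j' : ∀ n, A s' n →⋆ₐ[ℂ] L'), IsLim (φ s) j → IsLim (φ s') j' →
    ∃ Φ : TracialState L' ≃ₜ TracialState L, IsAffineMap Φ ∧
      ∀ (τ : TracialState L') (n : ℕ) (a : A s n) (a' : A s' n), (∀ t y, nt a t y = nt a' t y) →
        (Φ τ).val (j n a) = τ.val (j' n a')

/-- AV.  Limits of point traces.  For `y : L` choose `x i : A s (n i)` with `j (x i) → y` (possible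
as `n i → ∞`), take the limit along `F` of the bounded sequence of the normalised traces of
`x i (t i) (y i)`. -/
def S_AV : Prop :=
  ∀ (s : ℕ → Bool) (L : Type) [CStarAlgebra L] (j : ∀ n, A s n →⋆ₐ[ℂ] L), IsLim (φ s) j →
    ∀ (F : Ultrafilter ℕ) (n : ℕ → ℕ) (t : ∀ i, Fin (n i + 1)) (y : ∀ i, X (n i) (t i)),
      Tendsto n F atTop → ∃ τ : TracialState L, ∀ (m : ℕ) (a : A s m),
        Tendsto (fun i => nt (trans (φ s) m (n i) a) (t i) (y i)) F (𝓝 (τ.val (j m a)))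

/-- PT.  A lower bound for all tracial states is nearly a pointwise lower bound at high levels
(otherwise apply AV to a sequence of bad points; `hyperfilter`). -/
def S_PT : Prop :=
  S_AV → ∀ (s : ℕ → Bool) (L : Type) [CStarAlgebra L] (j : ∀ n, A s n →⋆ₐ[ℂ] L), IsLim (φ s) j →
    ∀ (m : ℕ) (a : A s m) (ρ : ℝ), (∀ τ : TracialState L, ρ ≤ (τ.val (j m a)).re) →
      ∀ η : ℝ, 0 < η → ∃ n₀, ∀ n, n₀ ≤ n → ∀ t y, ρ - η ≤ (nt (trans (φ s) m n a) t y).re

/-! ### Piece WT: weights of the types -/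

/-- WTM.  `nt (φ (eC t)) t' y ≥ (d (n + 1) / d n) * nt (eC t) t' y`. -/
def S_WTM : Prop :=
  S_NUM → S_TRF → S_MONO →
  ∀ (s : ℕ → Bool) (L : Type) [CStarAlgebra L] (j : ∀ n, A s n →⋆ₐ[ℂ] L), IsLim (φ s) j →
    ∀ (τ : TracialState L) (t n m : ℕ) (hn : t ≤ n) (hm : t ≤ m), n ≤ m →
      d m * (τ.val (j m (eC s (ft hm)))).re ≤ d n * (τ.val (j n (eC s (ft hn)))).re

/-- WTE.  There is a tracial state concentrated on the type `t`: AV for the points `x0` of the
component `t`.  By TRF (induction on `m`), `nt (trans n m (eC t)) t (x0 m t) ≥ d m / d n`; the sum over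
all `t'` of the `nt (trans n m (eC t'))` is `1`. -/
def S_WTE : Prop :=
  S_NUM → S_TRF → S_AV →
  ∀ (s : ℕ → Bool) (L : Type) [CStarAlgebra L] (j : ∀ n, A s n →⋆ₐ[ℂ] L), IsLim (φ s) j →
    ∀ t : ℕ, ∃ τ : TracialState L,
      (∀ n (hn : t ≤ n), 1 / 2 ≤ (τ.val (j n (eC s (ft hn)))).re) ∧
      ∀ t', t' ≠ t → ∀ ε : ℝ, 0 < ε → ∃ n₁, ∀ n (hn : t' ≤ n), n₁ ≤ n →
        (τ.val (j n (eC s (ft hn)))).re < ε

/-! ### Pieces RK, K0, K1, ELL -/

/-- RK.  Projections over level `n`.  The spaces `X n t` are contractible, so projections over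
`C(X n t, M_N)` are determined up to equivalence by their rank (`S_PRT3` of
`Pool.Agent.Run7.h745.Iface`, proved in `Pool/Agent/Run7/h745/Prt.lean`; contractibility as in
`KT3.lean`, `contractible_W`). -/
def S_RK : Prop :=
  ∀ (s : ℕ → Bool) (n : ℕ),
    (∀ P : Prj (A s n), ∃ r : Fin (n + 1) → ℕ, ∀ t y,
      nt (Matrix.trace P.mat) t y = (r t : ℂ) / N s n t) ∧
    (∀ P Q : Prj (A s n), (∀ t y, nt (Matrix.trace P.mat) t y = nt (Matrix.trace Q.mat) t y) →
      Eqv P.mat Q.mat) ∧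
    (∀ P Q : Prj (A s n), Eqv P.mat Q.mat → ∀ t y,
      nt (Matrix.trace P.mat) t y = nt (Matrix.trace Q.mat) t y) ∧
    ∀ r : Fin (n + 1) → ℕ, ∃ P : Prj (A s n), ∀ t y,
      nt (Matrix.trace P.mat) t y = (r t : ℂ) / N s n t

/-- KZ.  The ordered group `K_0(L_s)` does not see `s`.  A class of projections over `L` comes from a
projection over some level (`lim1` in `Pool.Agent.TH249.Lim`), which by RK is given by its normalised
ranks; `P ~ Q` over `L` if and only if the normalised ranks agree at a later level (`lim2`, RK, TRF).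
Normalised ranks at level `n` are arbitrary in `(1 / (amp t * k n)) ℕ`; after one more step they are in
`(1 / (amp' t' * k (n + 1))) ℕ` for every other `amp'`, as all multiplicities are divisible by `4`
(`q n = 4 qq n`).  So `V(L) ≃ V(L')`. -/
def S_KZ : Prop :=
  S_RK → S_TRF →
  ∀ (s s' : ℕ → Bool) (L : Type) [CStarAlgebra L] (j : ∀ n, A s n →⋆ₐ[ℂ] L)
    (L' : Type) [CStarAlgebra L'] (j' : ∀ n, A s' n →⋆ₐ[ℂ] L'), IsLim (φ s) j → IsLim (φ s') j' →
    ∃ φ₀ : K0 L ≃+ K0 L', (∀ x, x ∈ K0.pos L ↔ φ₀ x ∈ K0.pos L') ∧ φ₀ (K0.unit L) = K0.unit L' ∧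
      ∀ P : Prj L, ∃ (n : ℕ) (Q : Prj (A s n)) (Q' : Prj (A s' n)),
        K0.cls P = K0.cls (Q.map (j n)) ∧ φ₀ (K0.cls P) = K0.cls (Q'.map (j' n)) ∧
        ∀ t y, nt (Matrix.trace Q.mat) t y = nt (Matrix.trace Q'.mat) t y

/-- KO.  `K_1(L_s) = 0`: a unitary matrix over `L` is close to a unitary matrix over some level
(which is homotopic to a constant one since the `X n t` are contractible, and `U(N)` is connected). -/
def S_KO : Prop :=
  ∀ (s : ℕ → Bool) (L : Type) [CStarAlgebra L] (j : ∀ n, A s n →⋆ₐ[ℂ] L), IsLim (φ s) j →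
    ∀ (m : ℕ) (U : Matrix (Fin m) (Fin m) L), U ∈ unitary (Matrix (Fin m) (Fin m) L) →
      JoinedIn (unitary (Matrix (Fin m) (Fin m) L) : Set (Matrix (Fin m) (Fin m) L)) U 1

/-- ELLA.  Assembly of the Elliott invariant. -/
def S_ELLA : Prop :=
  S_TR → S_KZ → S_RK → S_TRF → S_KO →
  ∀ (s s' : ℕ → Bool) (L : Type) [CStarAlgebra L] (j : ∀ n, A s n →⋆ₐ[ℂ] L)
    (L' : Type) [CStarAlgebra L'] (j' : ∀ n, A s' n →⋆ₐ[ℂ] L'), IsLim (φ s) j → IsLim (φ s') j' →
    SameElliott L L'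

/-! ### The obstruction -/

section bC
variable (m : ℕ)

/-- a letter as a complex matrix -/
def zC (z : coneSet (m + 1)) : Matrix (Fin (2 * (m + 1) + 1)) (Fin (2 * (m + 1) + 1)) ℂ :=
  Matrix.of fun a b => ((z.1 a b : ℝ) : ℂ)

/-- `(z²)^{⊕(m+1)} ⊕ (1 - (tr z)²) 1_{m+1}`, a positive contraction of trace `m + 1` -/
def bC (z : coneSet (m + 1)) : Matrix (Nb m) (Nb m) ℂ :=
  Matrix.fromBlocks (Matrix.blockDiagonal fun _ => zC m z * zC m z) 0 0
    (Matrix.diagonal fun _ => 1 - (zC m z).trace ^ 2)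

end bC

lemma continuous_bC (m : ℕ) (r r' : Nb m) : Continuous fun z : coneSet (m + 1) => bC m z r r' := by
  have h0 : ∀ a b, Continuous fun z : coneSet (m + 1) => zC m z a b := fun a b =>
    Complex.continuous_ofReal.comp ((continuous_apply b).comp ((continuous_apply a).comp
      continuous_subtype_val))
  rcases r with ⟨a, p⟩ | p <;> rcases r' with ⟨b, p'⟩ | p'
  · simp only [bC, Matrix.fromBlocks_apply₁₁, Matrix.blockDiagonal_apply]
    split_ifs
    · simp only [Matrix.mul_apply]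
      exact continuous_finsetSum _ fun c _ => (h0 a c).mul (h0 c b)
    · exact continuous_const
  · exact continuous_const
  · exact continuous_const
  · simp only [bC, Matrix.fromBlocks_apply₂₂, Matrix.diagonal_apply]
    split_ifs
    · simp only [Matrix.trace]
      exact continuous_const.sub ((continuous_finsetSum _ fun c _ => h0 c c).pow 2)
    · exact continuous_const

/-- the diagonal matrix with entries `bC (y p) r r'` (`p < f n₀`) and `0` (`p ≥ f n₀`) -/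
def gC (s : ℕ → Bool) (n₀ t : ℕ) (r r' : Nb (mm t)) : C(X n₀ t, MA (Fin (N s n₀ t)) ℂ) :=
  ⟨fun y => MA.of fun p p' => if p = p' then
    (if h : (p : ℕ) < f n₀ then bC (mm t) (y ⟨p, h⟩) r r' else 0) else 0, by
    have h1 : Continuous fun y : X n₀ t => (show Matrix (Fin (N s n₀ t)) (Fin (N s n₀ t)) ℂ from
        fun p p' => if p = p' then
        (if h : (p : ℕ) < f n₀ then bC (mm t) (y ⟨p, h⟩) r r' else 0) else 0) := by
      refine continuous_pi fun p => continuous_pi fun p' => ?_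
      split_ifs
      · exact (continuous_bC _ r r').comp (continuous_apply _)
      · exact continuous_const
      · exact continuous_const
    exact h1⟩

/-- the obstruction of type `t` at level `n₀`: `gC` in the component `t`, the unit matrix in all other
components -/
def Bt (s : ℕ → Bool) (n₀ t : ℕ) (ht : t ≤ n₀) : Matrix (Nb (mm t)) (Nb (mm t)) (A s n₀) :=
  Matrix.of fun r r' => Pi.single (ft ht) (gC s n₀ t r r') +
    (1 - eC s (ft ht)) * (if r = r' then 1 else 0)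

/-- BT.  `Bt` is a positive contraction and its normalised trace is at least `(3/4) M_t / amp t`
(in the component `t` it is `f n₀ * M_t / (amp t * k n₀)`, in the others it is `card Nb ≥ M_t`).
Compare `Pool/Agent/Run7/h305/CX/Qb.lean` (`sF`, `one_sub_bF`, `bF_trace`). -/
def S_BT : Prop :=
  S_NUM → ∀ (s : ℕ → Bool) (n₀ t : ℕ) (ht : t ≤ n₀),
    (∃ S : Matrix (Nb (mm t)) (Nb (mm t)) (A s n₀), Bt s n₀ t ht = Sᴴ * S) ∧
    (∃ Z : Matrix (Nb (mm t)) (Nb (mm t)) (A s n₀), 1 - Bt s n₀ t ht = Zᴴ * Z) ∧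
    ∀ t₁ y, 3 / 4 * ((mm t : ℝ) + 1) / amp s t ≤ (nt (Matrix.trace (Bt s n₀ t ht)) t₁ y).re

/-- OBA.  The obstruction (Borsuk-Ulam: lemma `Run7.h745.OB.bu` in `OBa.lean`).  Approximate `v` by
a matrix over level `n`; at the points of `X n t` whose letters are `ζ ζᵀ / |ζ|²` the matrix
`fromBlocks Bt 0 0 e` kills all vectors orthogonal to the `ζ`s at the free coordinates, to the constant
blocks, and (a trivialisation of) the projection `e`.
At level `n` the free level `n₀` blocks in the component `t` are `f n / f n₀` many. -/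
def S_OBA : Prop :=
  ∀ (s : ℕ → Bool) (L : Type) [CStarAlgebra L] (j : ∀ n, A s n →⋆ₐ[ℂ] L), IsLim (φ s) j →
    ∀ (t n₀ : ℕ) (ht : t ≤ n₀) (n₂ l : ℕ) (e : Matrix (Fin l) (Fin l) (A s n₂)), IsPrj e →
    ∀ v : Matrix (Nb (mm t) ⊕ Fin l) (Fin 1) L,
      vᴴ * Matrix.fromBlocks ((Bt s n₀ t ht).map (j n₀)) 0 0 (e.map (j n₂)) * v = 1 →
      ∃ n₁, ∀ n (hn : t ≤ n), n₁ ≤ n → ∀ y,
        (1 : ℝ) ≤ (nt (trans (φ s) n₂ n (Matrix.trace e)) (ft hn) y).re +
          Fintype.card (Nb (mm t)) * (1 - d n / d n₀)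

/-! ### The invariant -/

/-- Local comparison at the tracial state `τ₀` with radius `r`: every positive contraction `c` over
`A` with `τ(c) ≥ 1 + r` for all `τ` satisfies `1 ≾ c ⊕ e` for projections `e` with `τ₀(e)`
arbitrarily small. -/
def PrT (A : Type) [CStarAlgebra A] (τ₀ : TracialState A) (r : ℝ) : Prop :=
  ∀ (k : ℕ) (c : Matrix (Fin k) (Fin k) A),
    (∃ y : Matrix (Fin k) (Fin k) A, c = yᴴ * y) →
    (∃ y : Matrix (Fin k) (Fin k) A, 1 - c = yᴴ * y) →
    (∀ τ : TracialState A, 1 + r ≤ (τ.mat c).re) →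
    ∀ ε : ℝ, 0 < ε → ∃ (l : ℕ) (e : Matrix (Fin l) (Fin l) A)
      (v : Matrix (Fin k ⊕ Fin l) (Fin 1) A),
      IsPrj e ∧ (τ₀.mat e).re < ε ∧ vᴴ * Matrix.fromBlocks c 0 0 e * v = 1

/-- `D_t`: invariant of isomorphism -/
def Dt (A : Type) [CStarAlgebra A] (t : ℕ) : Prop :=
  ∀ τ₀ : TracialState A, PrT A τ₀ (2 * ((mm t : ℝ) + 1)) → PrT A τ₀ (((mm t : ℝ) + 1) / 2)

/-- ISO.  Isomorphic algebras have the same `Dt`. -/
def S_ISO : Prop :=
  ∀ (A B : Type) [CStarAlgebra A] [CStarAlgebra B], Nonempty (A ≃⋆ₐ[ℂ] B) → ∀ t, Dt A t → Dt B t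

/-- LOW.  If `τ₀` does not vanish on the type `t` then the radius at `τ₀` is at least
`(3/4) M_t / amp t - 1`.  Take `c = Bt` at a level `n₀` with `card Nb * (1/2)^(n₀ + 2) < 1/2` (NUM); by
OBA any `e` (replace it by a projection over a finite level, `lim1`) has normalised rank at least
`1/2` in the component `t`, so `τ₀(e) ≥ δ / 2` (MONO). -/
def S_LOW : Prop :=
  S_NUM → S_MONO → S_BT → S_OBA →
  ∀ (s : ℕ → Bool) (L : Type) [CStarAlgebra L] (j : ∀ n, A s n →⋆ₐ[ℂ] L), IsLim (φ s) j →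
    ∀ (t : ℕ) (τ₀ : TracialState L) (δ : ℝ), 0 < δ →
      (∀ n (hn : t ≤ n), δ ≤ (τ₀.val (j n (eC s (ft hn)))).re) →
      ∀ r : ℝ, 1 + r ≤ 3 / 4 * ((mm t : ℝ) + 1) / amp s t → ¬ PrT L τ₀ r

/-- QTA.  Values of quasitraces at `Bt` (compare `Pool/Agent/Run7/h305/CX/QTR.lean`). -/
def S_QTA : Prop :=
  S_NUM → S_BT → ∀ (s : ℕ → Bool) (L : Type) [CStarAlgebra L] (j : ∀ n, A s n →⋆ₐ[ℂ] L), IsLim (φ s) j →
    ∀ (t n₀ : ℕ) (ht : t ≤ n₀), ∃ (k : ℕ) (b a : Matrix (Fin (k + 1)) (Fin (k + 1)) L)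
      (e : Fin (k + 1) ≃ Nb (mm t)),
      b = ((Bt s n₀ t ht).map (j n₀)).submatrix e e ∧ IsPos b ∧
      a = Matrix.diagonal (fun i => if i = 0 then 1 else 0) ∧ IsPos a ∧
      ∀ τ : QT L, τ.rank a ≤ 1 ∧
        ENNReal.ofReal (3 / 4 * ((mm t : ℝ) + 1) / amp s t) ≤ τ.rank b

/-- RCA.  The radius of comparison is infinite (compare `Pool/Agent/Run7/h305/CX/RC.lean`). -/
def S_RCA : Prop :=
  S_NUM → S_BT → S_OBA → S_QTA →
  ∀ (s : ℕ → Bool) (L : Type) [CStarAlgebra L] (j : ∀ n, A s n →⋆ₐ[ℂ] L), IsLim (φ s) j → rc L = ⊤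

/-! ### The upper bound -/

/-- Lipschitz elements of level `n` -/
def IsLip {s : ℕ → Bool} {n : ℕ} (a : A s n) : Prop :=
  ∃ C : ℝ, ∀ (t : Fin (n + 1)) (y y' : X n t) (p p' : Fin (N s n t)),
    ‖(a t y).en p p' - (a t y').en p p'‖ ≤ C * dist y y'

/-- LIP.  Lipschitz elements are dense (Stone-Weierstrass); the connecting maps preserve them;
elements of level `m` are constant in the components `t > m` of later levels. -/
def S_LIP : Prop :=
  (∀ s n (a : A s n) (ε : ℝ), 0 < ε → ∃ b : A s n, ‖a - b‖ < ε ∧ IsLip b) ∧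
  (∀ s m n (a : A s m), m ≤ n → IsLip a → IsLip (trans (φ s) m n a)) ∧
  ∀ s m n (a : A s m) (t : Fin (n + 1)), m ≤ n → m < (t : ℕ) → ∀ y y',
    trans (φ s) m n a t y = trans (φ s) m n a t y'

/-- UPX.  One component: let `c` be a Lipschitz matrix over level `n` with
`0 ≤ c ≤ 1 + θ`, and normalised trace at least `1 + ρ` at the component `t`, with
`(1 + θ) (N + ρ') + 2 θ κ N ≤ (1 + ρ) N`, where `N = N s n t` and `ρ'` is half of the dimension (or `0` if
`c` is constant there).  Then there are `v` and `c₀ > 0` with `v* (c - θ) v ≥ c₀` on this component.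
`S_G2` (proved in `Pool/Agent/Run7/h305/CX/G2.lean`) with `M = f n * (2 (mm t + 1) + 1)` parameters
`ζ` (the letters are `ζ ζᵀ`), or `M = 0`. -/
def S_UPX : Prop :=
  S_G2 → ∀ (s : ℕ → Bool) (n : ℕ) (t : Fin (n + 1)) (κ : ℕ) (θ : ℝ)
    (c : Matrix (Fin κ) (Fin κ) (A s n)), 0 < θ → (∀ i i', IsLip (c i i')) →
    (∃ y : Matrix (Fin κ) (Fin κ) (A s n), c = yᴴ * y) →
    (∃ y : Matrix (Fin κ) (Fin κ) (A s n), ((1 + θ : ℝ) : ℂ) • 1 - c = yᴴ * y) →
    ∀ r : ℕ, ((∀ i i' y y', c i i' t y = c i i' t y') ∨ f n * (2 * (mm t + 1) + 1) ≤ 2 * r + 1) →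
    (∀ y, (1 + θ) * ((N s n t : ℝ) + r) + 2 * θ * (κ * N s n t) ≤
      N s n t * (nt (Matrix.trace c) t y).re) →
    ∃ (v : Matrix (Fin κ) (Fin 1) (A s n)) (c₀ : ℝ) (y : Matrix (Fin 1) (Fin 1) (A s n)), 0 < c₀ ∧
      (∀ i, v i 0 = v i 0 * eC s t) ∧
      vᴴ * (c - ((θ : ℝ) : ℂ) • 1) * v - (c₀ : ℂ) • (Matrix.of fun _ _ => eC s t) = yᴴ * y

/-- UP.  The upper bound for the radius at `τ₀`.  Approximate `c` by a Lipschitz matrix over
level `m`, use PT at a high level `n`; on the components `t ≤ m` on which `τ₀` is not small and on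
the components `t > m` (where the matrix is constant) use UPX; `e` is the unit of the other
components. -/
def S_UP : Prop :=
  S_NUM → S_MONO → S_TRF → S_PT → S_AV → S_LIP → S_UPX → S_G2 →
  ∀ (s : ℕ → Bool) (L : Type) [CStarAlgebra L] (j : ∀ n, A s n →⋆ₐ[ℂ] L), IsLim (φ s) j →
    ∀ (τ₀ : TracialState L) (R : ℝ), 0 < R → (∀ t : ℕ,
      (∀ ε : ℝ, 0 < ε → ∃ n₁, ∀ n (hn : t ≤ n), n₁ ≤ n → (τ₀.val (j n (eC s (ft hn)))).re < ε) ∨
        ((mm t : ℝ) + 2) / amp s t ≤ R) → PrT L τ₀ R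

/-- FINAL -/
def S_FINAL : Prop :=
  ∃ (L : (ℕ → Bool) → Type) (_ : ∀ s, CStarAlgebra (L s)),
    (∀ s, IsSimpleRing (L s)) ∧ (∀ s, TopologicalSpace.SeparableSpace (L s)) ∧
    (∀ s, IsAH (L s)) ∧ (∀ s s', SameElliott (L s) (L s')) ∧ (∀ s, rc (L s) = ⊤) ∧
    ∀ s s', s ≠ s' → IsEmpty (L s ≃⋆ₐ[ℂ] L s')

end Run7.h745.AH
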