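import Pool.Agent.Run7.h745.Sys1
import Pool.Agent.H188R3.IndLim2
import Pool.Agent.TH249.Lim

/-!
# MP_501a10_an: the inductive systems

For `s : ℕ → Bool` (a subset of `ℕ`), the algebra `A^s` is the limit of
`A_n = ∏_{t ≤ n} C(X_{n,t}, M_{amp t · k_n})`, where `X_{n,t} = (cone over RP^{2(mm t + 1)})^{f n}`
and `amp t = 4` for `s t = true`, `amp t = 1` otherwise.
-/

set_option autoImplicit false

noncomputable section

namespace Run7.h745.AH

open Filter Topology Pool.Agent.H188R3

/-! ### Numbers -/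

/-- `mm t + 1 = 16 ^ (t + 1)` -/
def mm (t : ℕ) : ℕ := 16 ^ (t + 1) - 1

lemma mm_succ (t : ℕ) : mm t + 1 = 16 ^ (t + 1) := by
  unfold mm
  have : 0 < 16 ^ (t + 1) := by positivity
  omega

/-- a quarter of the number of free sub-blocks -/
def qq (n : ℕ) : ℕ := 2 ^ (n + 3) * (n + 1) ^ 3

/-- number of free sub-blocks -/
def q (n : ℕ) : ℕ := 4 * qq n

/-- sizes -/
def k : ℕ → ℕ
  | 0 => 1
  | n + 1 => (q n + 4 * (n + 1) ^ 3) * k n

/-- numbers of coordinates -/
def f : ℕ → ℕ
  | 0 => 1
  | n + 1 => q n * f n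

lemma qq_pos (n : ℕ) : 0 < qq n := by unfold qq; positivity

lemma q_pos (n : ℕ) : 0 < q n := Nat.mul_pos (by norm_num) (qq_pos n)

lemma k_pos (n : ℕ) : 0 < k n := by
  induction n with
  | zero => exact one_pos
  | succ n ih => exact Nat.mul_pos (Nat.add_pos_left (q_pos n) _) ih

lemma f_pos (n : ℕ) : 0 < f n := by
  induction n with
  | zero => exact one_pos
  | succ n ih => exact Nat.mul_pos (q_pos n) ih

lemma f_succ (n : ℕ) : f (n + 1) = q n * f n := rfl
lemma k_succ (n : ℕ) : k (n + 1) = (q n + 4 * (n + 1) ^ 3) * k n := rfl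

/-- amplification factor of type `t` -/
def amp (s : ℕ → Bool) (t : ℕ) : ℕ := if s t then 4 else 1

/-- `4 / amp t` -/
def co (s : ℕ → Bool) (t : ℕ) : ℕ := if s t then 1 else 4

lemma amp_co (s : ℕ → Bool) (t : ℕ) : amp s t * co s t = 4 := by
  unfold amp co
  cases s t <;> rfl

lemma amp_pos (s : ℕ → Bool) (t : ℕ) : 0 < amp s t := by
  unfold amp
  split_ifs <;> norm_num

lemma co_pos (s : ℕ → Bool) (t : ℕ) : 0 < co s t := by
  unfold co
  split_ifs <;> norm_num

/-- matrix size of the component `t` at level `n` -/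
def N (s : ℕ → Bool) (n t : ℕ) : ℕ := amp s t * k n

lemma N_pos (s : ℕ → Bool) (n t : ℕ) : 0 < N s n t := Nat.mul_pos (amp_pos s t) (k_pos n)

instance (s : ℕ → Bool) (n t : ℕ) : Nonempty (Fin (N s n t)) := ⟨⟨0, N_pos s n t⟩⟩

/-! ### Spaces -/

/-- letters of type `t`: the cone over `RP^{2(mm t + 1)}` -/
abbrev CZ (t : ℕ) : Type := coneSet (mm t + 1)

/-- the vertex of the cone -/
def z0 (t : ℕ) : CZ t := ⟨fun _ _ => 0, ⟨fun _ => 0, by simp, by simp⟩⟩

instance (t : ℕ) : Nonempty (CZ t) := ⟨z0 t⟩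

/-- the space of the component `t` at level `n` -/
abbrev X (n t : ℕ) : Type := Fin (f n) → CZ t

/-- the base point -/
def x0 (n t : ℕ) : X n t := fun _ => z0 t

/-- indices of the constants at level `n`: `(n', i, t)` is the `i`-th point of a dense sequence of
`X_{n', t}`, lifted to level `n` -/
abbrev Cn (n : ℕ) : Type := Fin (n + 1) × Fin (n + 1) × Fin (n + 1)

/-- the constants -/
def pt (n : ℕ) (c : Cn n) : X n c.2.2 := fun a =>
  TopologicalSpace.denseSeq (X c.1 c.2.2) c.2.1 ⟨a % f c.1, Nat.mod_lt _ (f_pos _)⟩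

/-- sub-blocks of the component `t'` at level `n + 1`: the free ones (only for `t' ≤ n`), the fillers
(only for `t' = n + 1`), the constants -/
abbrev Slot (s : ℕ → Bool) (n t' : ℕ) : Type :=
  (PLift (t' ≤ n) × Fin (q n)) ⊕
    ((PLift (n < t') × Fin (amp s t' * (co s 0 * qq n))) ⊕
      (Σ c : Cn n, Fin (amp s t' * co s c.2.2)))

instance (s : ℕ → Bool) (n t' : ℕ) : DecidableEq (Slot s n t') := Classical.decEq _

/-- type of a sub-block -/
def src (s : ℕ → Bool) (n t' : ℕ) : Slot s n t' → Fin (n + 1)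
  | Sum.inl ⟨h, _⟩ => ⟨t', Nat.lt_succ_of_le h.down⟩
  | Sum.inr (Sum.inl _) => 0
  | Sum.inr (Sum.inr c) => c.1.2.2

/-- the `j`-th sub-block of the coordinates -/
def blk (n t : ℕ) (j : Fin (q n)) : C(X (n + 1) t, X n t) :=
  ⟨fun y i => y (finProdFinEquiv (j, i)), by fun_prop⟩

/-- the map of a sub-block -/
def lam (s : ℕ → Bool) (n t' : ℕ) : (σ : Slot s n t') → C(X (n + 1) t', X n (src s n t' σ))
  | Sum.inl ⟨_, j⟩ => blk n t' j
  | Sum.inr (Sum.inl _) => ContinuousMap.const _ (x0 n 0)
  | Sum.inr (Sum.inr c) => ContinuousMap.const _ (pt n c.1)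

lemma card_slot (s : ℕ → Bool) (n t' : ℕ) :
    Fintype.card (Σ σ : Slot s n t', Fin (N s n (src s n t' σ))) = N s (n + 1) t' := by
  rw [Fintype.card_sigma, Fintype.sum_sum_type, Fintype.sum_sum_type, Fintype.sum_prod_type,
    Fintype.sum_prod_type, Fintype.sum_sigma]
  have h3 : ∑ c : Cn n, ∑ j : Fin (amp s t' * co s c.2.2),
      Fintype.card (Fin (N s n (src s n t' (Sum.inr (Sum.inr ⟨c, j⟩))))) =
      amp s t' * (4 * (n + 1) ^ 3) * k n := by
    have h4 : ∀ c : Cn n, ∑ j : Fin (amp s t' * co s c.2.2),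
        Fintype.card (Fin (N s n (src s n t' (Sum.inr (Sum.inr ⟨c, j⟩))))) =
        amp s t' * 4 * k n := by
      intro c
      have h5 : ∀ j : Fin (amp s t' * co s c.2.2),
        Fintype.card (Fin (N s n (src s n t' (Sum.inr (Sum.inr ⟨c, j⟩))))) =
          amp s c.2.2 * k n := by
        intro j
        rw [Fintype.card_fin]
        rfl
      rw [Finset.sum_congr rfl fun j _ => h5 j, Finset.sum_const, Finset.card_univ,
        Fintype.card_fin, smul_eq_mul]
      calc amp s t' * co s c.2.2 * (amp s c.2.2 * k n)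
          = amp s t' * (amp s c.2.2 * co s c.2.2) * k n := by ring
        _ = amp s t' * 4 * k n := by rw [amp_co]
    rw [Finset.sum_congr rfl fun c _ => h4 c, Finset.sum_const, Finset.card_univ]
    simp only [Fintype.card_prod, Fintype.card_fin, smul_eq_mul]
    ring
  rw [h3]
  by_cases ht : t' ≤ n
  · have hu1 : (Finset.univ : Finset (PLift (t' ≤ n))) = {⟨ht⟩} := by
      ext x; simp
    have hu2 : (Finset.univ : Finset (PLift (n < t'))) = ∅ := by
      rw [Finset.eq_empty_iff_forall_notMem]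
      intro x; exact absurd x.down (not_lt.mpr ht)
    rw [hu1, hu2, Finset.sum_singleton, Finset.sum_empty, zero_add]
    have h5 : ∀ j : Fin (q n), Fintype.card (Fin (N s n (src s n t' (Sum.inl (⟨ht⟩, j))))) =
        amp s t' * k n := by
      intro j
      rw [Fintype.card_fin]
      rfl
    rw [Finset.sum_congr rfl fun j _ => h5 j, Finset.sum_const, Finset.card_univ,
        Fintype.card_fin, smul_eq_mul]
    unfold N
    rw [k_succ]
    ring
  · have hu1 : (Finset.univ : Finset (PLift (t' ≤ n))) = ∅ := by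
      rw [Finset.eq_empty_iff_forall_notMem]
      intro x; exact absurd x.down ht
    have hu2 : (Finset.univ : Finset (PLift (n < t'))) = {⟨not_le.mp ht⟩} := by
      ext x; simp
    rw [hu1, hu2, Finset.sum_singleton, Finset.sum_empty, zero_add]
    have h5 : ∀ j : Fin (amp s t' * (co s 0 * qq n)),
        Fintype.card (Fin (N s n (src s n t' (Sum.inr (Sum.inl (⟨not_le.mp ht⟩, j)))))) =
        amp s 0 * k n := by
      intro j
      rw [Fintype.card_fin]
      rfl
    rw [Finset.sum_congr rfl fun j _ => h5 j, Finset.sum_const, Finset.card_univ,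
        Fintype.card_fin, smul_eq_mul]
    unfold N
    rw [k_succ]
    have h6 := amp_co s 0
    calc amp s t' * (co s 0 * qq n) * (amp s 0 * k n) + amp s t' * (4 * (n + 1) ^ 3) * k n
        = amp s t' * ((amp s 0 * co s 0) * qq n + 4 * (n + 1) ^ 3) * k n := by ring
      _ = amp s t' * (4 * qq n + 4 * (n + 1) ^ 3) * k n := by rw [h6]
      _ = amp s t' * ((q n + 4 * (n + 1) ^ 3) * k n) := by unfold q; ring

/-- a matrix position at level `n + 1` is a position in a sub-block -/
def pe (s : ℕ → Bool) (n t' : ℕ) :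
    Fin (N s (n + 1) t') ≃ Σ σ : Slot s n t', Fin (N s n (src s n t' σ)) :=
  (Fintype.equivFinOfCardEq (card_slot s n t')).symm

/-! ### Block diagonal matrices -/

section bd
variable {W : Type} [Fintype W] [DecidableEq W] {I : W → Type} [∀ σ, Fintype (I σ)]
  [∀ σ, DecidableEq (I σ)] {J : Type} [Fintype J] [DecidableEq J]

/-- the block diagonal matrix with the given blocks -/
def bd (e : J ≃ Σ σ, I σ) : (∀ σ, MA (I σ) ℂ) →⋆ₐ[ℂ] MA J ℂ where
  toFun x := MA.of fun p p' => Matrix.blockDiagonal' (fun σ => Matrix.of fun i i' => (x σ).en i i')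
    (e p) (e p')
  map_one' := by
    have h : (Matrix.blockDiagonal' fun σ => Matrix.of fun i i' => ((1 : ∀ σ, MA (I σ) ℂ) σ).en i i')
        = (1 : Matrix (Σ σ, I σ) (Σ σ, I σ) ℂ) := by
      rw [← Matrix.blockDiagonal'_one]
      congr 1
    ext p p'
    rw [MA.en_of, h, Matrix.one_apply, MA.en_one]
    simp
  map_mul' x y := by
    have h : (Matrix.blockDiagonal' fun σ => Matrix.of fun i i' => ((x * y) σ).en i i')
        = (Matrix.blockDiagonal' fun σ => Matrix.of fun i i' => (x σ).en i i') *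
          (Matrix.blockDiagonal' fun σ => Matrix.of fun i i' => (y σ).en i i') := by
      rw [← Matrix.blockDiagonal'_mul]
      congr 1
    ext p p'
    rw [MA.en_of, h, MA.en_mul, Matrix.mul_apply]
    exact (Equiv.sum_comp e (fun c => Matrix.blockDiagonal' (fun σ => Matrix.of fun i i' =>
      (x σ).en i i') (e p) c * Matrix.blockDiagonal' (fun σ => Matrix.of fun i i' =>
      (y σ).en i i') c (e p'))).symm
  map_zero' := by
    ext p p'
    have h : (Matrix.blockDiagonal' fun σ => Matrix.of fun i i' => ((0 : ∀ σ, MA (I σ) ℂ) σ).en i i')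
        = (0 : Matrix (Σ σ, I σ) (Σ σ, I σ) ℂ) := by
      rw [← Matrix.blockDiagonal'_zero]
      congr 1
    rw [MA.en_of, h]; rfl
  map_add' x y := by
    have h : (Matrix.blockDiagonal' fun σ => Matrix.of fun i i' => ((x + y) σ).en i i')
        = (Matrix.blockDiagonal' fun σ => Matrix.of fun i i' => (x σ).en i i') +
          (Matrix.blockDiagonal' fun σ => Matrix.of fun i i' => (y σ).en i i') := by
      rw [← Matrix.blockDiagonal'_add]
      congr 1
    ext p p'
    rw [MA.en_of, h]; rfl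
  commutes' c := by
    ext p p'
    rw [MA.en_of, Matrix.blockDiagonal'_apply]
    by_cases h : p = p'
    · subst h
      rw [dif_pos rfl]
      simp [MA.en_algebraMap]
    · rw [MA.en_algebraMap, if_neg h]
      split_ifs with h1
      · have h2 : (algebraMap ℂ (∀ σ, MA (I σ) ℂ) c) (e p).1 = algebraMap ℂ (MA (I (e p).1) ℂ) c :=
          rfl
        rw [h2, Matrix.of_apply, MA.en_algebraMap, if_neg]
        intro h3
        apply h
        apply e.injective
        refine Sigma.ext h1 ?_
        rw [h3]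
        exact cast_heq _ _
      · rfl
  map_star' x := by
    have h : (Matrix.blockDiagonal' fun σ => Matrix.of fun i i' => ((star x) σ).en i i')
        = (Matrix.blockDiagonal' fun σ => Matrix.of fun i i' => (x σ).en i i').conjTranspose := by
      rw [Matrix.blockDiagonal'_conjTranspose]
      congr 1
    ext p p'
    rw [MA.en_of, h]; rfl

lemma bd_en (e : J ≃ Σ σ, I σ) (x : ∀ σ, MA (I σ) ℂ) (p p' : J) :
    (bd e x).en p p' = Matrix.blockDiagonal' (fun σ => Matrix.of fun i i' => (x σ).en i i')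
    (e p) (e p') := rfl

lemma bd_same (e : J ≃ Σ σ, I σ) (x : ∀ σ, MA (I σ) ℂ) (σ : W) (i i' : I σ) :
    (bd e x).en (e.symm ⟨σ, i⟩) (e.symm ⟨σ, i'⟩) = (x σ).en i i' := by
  rw [bd_en, e.apply_symm_apply, e.apply_symm_apply, Matrix.blockDiagonal'_apply_eq]
  rfl

lemma bd_ne (e : J ≃ Σ σ, I σ) (x : ∀ σ, MA (I σ) ℂ) (p p' : J) (h : (e p).1 ≠ (e p').1) :
    (bd e x).en p p' = 0 := by
  rw [bd_en, Matrix.blockDiagonal'_apply, dif_neg h]

lemma bd_continuous (e : J ≃ Σ σ, I σ) : Continuous (bd e : (∀ σ, MA (I σ) ℂ) → MA J ℂ) :=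
  AddMonoidHomClass.continuous_of_bound (bd e) 1 (fun x => by
    rw [one_mul]; exact norm_map_le' _ x)

end bd

/-! ### The algebras and the connecting maps -/

/-- the algebra of level `n` -/
abbrev A (s : ℕ → Bool) (n : ℕ) : Type := ∀ t : Fin (n + 1), C(X n t, MA (Fin (N s n t)) ℂ)

instance (s : ℕ → Bool) (n : ℕ) : CStarAlgebra (A s n) := inferInstance

instance (s : ℕ → Bool) (n : ℕ) : Nontrivial (A s n) := inferInstance

/-- the connecting maps -/
def φ (s : ℕ → Bool) (n : ℕ) : A s n →⋆ₐ[ℂ] A s (n + 1) where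
  toFun a t' := ⟨fun y => bd (pe s n t') fun σ => a (src s n t' σ) (lam s n t' σ y),
    (bd_continuous _).comp (continuous_pi fun σ => (a (src s n t' σ)).continuous.comp
      (lam s n t' σ).continuous)⟩
  map_one' := by
    funext t'
    ext1 y
    exact map_one (bd (pe s n t'))
  map_mul' a b := by
    funext t'
    ext1 y
    exact map_mul (bd (pe s n t')) (fun σ => a (src s n t' σ) (lam s n t' σ y))
      (fun σ => b (src s n t' σ) (lam s n t' σ y))
  map_zero' := by
    funext t'
    ext1 y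
    exact map_zero (bd (pe s n t'))
  map_add' a b := by
    funext t'
    ext1 y
    exact map_add (bd (pe s n t')) (fun σ => a (src s n t' σ) (lam s n t' σ y))
      (fun σ => b (src s n t' σ) (lam s n t' σ y))
  commutes' c := by
    funext t'
    ext1 y
    exact AlgHomClass.commutes (bd (pe s n t')) c
  map_star' a := by
    funext t'
    ext1 y
    exact map_star (bd (pe s n t')) (fun σ => a (src s n t' σ) (lam s n t' σ y))

lemma φ_apply (s : ℕ → Bool) (n : ℕ) (a : A s n) (t' : Fin (n + 2)) (y : X (n + 1) t') :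
    φ s n a t' y = bd (pe s n t') fun σ => a (src s n t' σ) (lam s n t' σ y) := rfl

end Run7.h745.AH
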